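import Mathlib

/-!
# 2-near perfect numbers `2^k p^m`: the arithmetic core (helper24)

If `p` is an odd prime, `m ≥ 3`, `2^(k+1) > p` and
`(2^(k+1) - p) (1 + p + ... + p^(m-1)) = 1 + 2^a₁ p^b₁ + 2^a₂ p^b₂` with different divisors
`2^aᵢ p^bᵢ` of `2^k p^m`, then `m = 3`, `2^(k+1) = p + 1` and the divisors are `p` and `p²`.
-/

set_option autoImplicit false

namespace Pool.Agent.P8H24.NP

open Finset

/-- `1 + p + ... + p^(m-1)` -/
def R (p : ℤ) (m : ℕ) : ℤ := ∑ i ∈ range m, p ^ i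

lemma R_succ (p : ℤ) (m : ℕ) : R p (m + 1) = R p m + p ^ m := sum_range_succ _ _

lemma R_geom (p : ℤ) (m : ℕ) : (p - 1) * R p m = p ^ m - 1 := by
  induction m with
  | zero => simp [R]
  | succ n ih => rw [R_succ, mul_add, ih]; ring

lemma R_zero (p : ℤ) : R p 0 = 0 := by simp [R]

lemma R_one (p : ℤ) : R p 1 = 1 := by simp [R]

lemma R_two (p : ℤ) : R p 2 = 1 + p := by simp [R, sum_range_succ]

lemma R_succ' (p : ℤ) (m : ℕ) : R p (m + 1) = p * R p m + 1 := by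
  induction m with
  | zero => simp [R]
  | succ n ih =>
    have h1 := R_succ p (n + 1)
    have h2 := R_succ p n
    have h3 : p ^ (n + 1) = p * p ^ n := by ring
    have h5 : p * R p (n + 1) = p * (R p n + p ^ n) := by rw [h2]
    have h6 : p * (R p n + p ^ n) = p * R p n + p * p ^ n := by ring
    linarith

lemma R_pos {p : ℤ} (hp : 3 ≤ p) {m : ℕ} (hm : 1 ≤ m) : 1 ≤ R p m := by
  obtain ⟨n, rfl⟩ : ∃ n, m = n + 1 := ⟨m - 1, by omega⟩
  clear hm
  induction n with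
  | zero => rw [R_one]
  | succ n ih =>
    rw [R_succ]
    have : 0 < p ^ (n + 1) := by positivity
    linarith

lemma caseA (p K x y : ℤ) (n b1 b2 : ℕ) (hp : 3 ≤ p) (hx : 0 < x) (hy : 0 < y) (hx2 : 2 * x ≤ K)
    (hy2 : 2 * y ≤ K) (hn : 1 ≤ n) (h3 : b1 ≤ b2) (h4 : b2 ≤ n) (h5 : b1 < b2 ∨ x ≠ y) (ht : p < K)
    (hE : (K - p) * R p (n + 2) = 1 + x * p ^ b1 + y * p ^ b2) : False := by
  have hp1 : (1 : ℤ) ≤ p := by linarith
  have hb : p ^ b2 ≤ p ^ n := pow_le_pow_right₀ hp1 h4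
  have hb1 : p ^ b1 ≤ p ^ b2 := pow_le_pow_right₀ hp1 h3
  have hb2 : 0 < p ^ b2 := by positivity
  have hn0 : 0 < p ^ n := by positivity
  have key : x * p ^ b1 + y * p ^ b2 < K * p ^ n := by
    have e1 : K * p ^ b2 ≤ K * p ^ n := mul_le_mul_of_nonneg_left hb (by linarith)
    rcases h5 with h | h
    · have h6 : p ^ b1 < p ^ b2 := pow_lt_pow_right₀ (by linarith) h
      have e2 : x * p ^ b1 < x * p ^ b2 := mul_lt_mul_of_pos_left h6 hx
      have e3 : (x + y) * p ^ b2 ≤ K * p ^ b2 := mul_le_mul_of_nonneg_right (by linarith) hb2.le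
      linarith
    · have h6 : x + y < K := by omega
      have e2 : x * p ^ b1 ≤ x * p ^ b2 := mul_le_mul_of_nonneg_left hb1 hx.le
      have e3 : (x + y) * p ^ b2 < K * p ^ b2 := mul_lt_mul_of_pos_right h6 hb2
      linarith
  have hR : R p (n + 2) = R p n + p ^ n + p ^ (n + 1) := by rw [R_succ, R_succ]
  have hRn : 1 ≤ R p n := R_pos hp hn
  have e4 : (K - p) * 1 ≤ (K - p) * R p n := mul_le_mul_of_nonneg_left hRn (by linarith)
  have e5 : 1 * p ^ (n + 1) ≤ (K - p) * p ^ (n + 1) :=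
    mul_le_mul_of_nonneg_right (by linarith) (by positivity)
  have e6 : (K - p) * p ^ n = K * p ^ n - p ^ (n + 1) := by ring
  rw [hR, mul_add, mul_add, e6] at hE
  linarith

/-- a power of two is one or even -/
lemma pow_two_odd {a : ℕ} (h : ¬ Even ((2 : ℤ) ^ a)) : a = 0 := by
  by_contra h0
  exact h (Even.pow_of_ne_zero (by decide) h0)

lemma caseB1 (p K : ℤ) (n b1 a1 a2 k : ℕ) (hp : 3 ≤ p) (hodd : ¬ Even p) (hK : K = 2 ^ (k + 1))
    (h1 : 2 * (2 : ℤ) ^ a1 ≤ K) (h2 : 2 * (2 : ℤ) ^ a2 ≤ K) (hn : 1 ≤ n) (h4 : b1 ≤ n) (ht : p < K)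
    (hE : (K - p) * R p (n + 2) = 1 + 2 ^ a1 * p ^ b1 + 2 ^ a2 * p ^ (n + 1)) :
    n = 1 ∧ K = p + 1 ∧ a1 = 0 ∧ b1 = 1 ∧ a2 = 0 := by
  have hp1 : (1 : ℤ) ≤ p := by linarith
  have hx : 0 < (2 : ℤ) ^ a1 := by positivity
  have hy : 0 < (2 : ℤ) ^ a2 := by positivity
  have hb1 : p ^ b1 ≤ p ^ n := pow_le_pow_right₀ hp1 h4
  have hb0 : 0 < p ^ b1 := by positivity
  have hn0 : 0 < p ^ n := by positivity
  have hnn : p ^ (n + 1) = p * p ^ n := by ring
  have hg := R_geom p (n + 1)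
  obtain ⟨s, hs⟩ : ∃ s, s = 2 ^ a2 - (K - p) := ⟨_, rfl⟩
  have hE' : 1 + 2 ^ a1 * p ^ b1 + s * p ^ (n + 1) = (K - p) * R p (n + 1) := by
    rw [R_succ, mul_add] at hE
    rw [hs]
    linarith
  have hxb : 0 < 2 ^ a1 * p ^ b1 := by positivity
  rcases lt_trichotomy s 0 with h | h | h
  · exfalso
    have e1 : s * p ^ (n + 1) ≤ -1 * p ^ (n + 1) := mul_le_mul_of_nonneg_right (by omega) (by positivity)
    have e2 : 2 * (2 ^ a1 * p ^ b1) ≤ K * p ^ n := by
      calc 2 * (2 ^ a1 * p ^ b1) = (2 * 2 ^ a1) * p ^ b1 := by ring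
        _ ≤ K * p ^ b1 := mul_le_mul_of_nonneg_right h1 hb0.le
        _ ≤ K * p ^ n := mul_le_mul_of_nonneg_left hb1 (by linarith)
    have e3 : R p (n + 1) = R p n + p ^ n := R_succ p n
    have e4 : 1 ≤ R p n := R_pos hp hn
    have e5 : (K - p) * 1 ≤ (K - p) * R p n := mul_le_mul_of_nonneg_left e4 (by linarith)
    have e6 : (K - p) * p ^ n = K * p ^ n - p ^ (n + 1) := by ring
    rw [e3, mul_add, e6] at hE'
    have e7 : p * p ^ n ≤ K * p ^ n := mul_le_mul_of_nonneg_right (by linarith) hn0.le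
    nlinarith
  · -- the Mersenne case
    have h3 : K = 2 ^ a2 + p := by linarith
    have ha2 : a2 = 0 := by
      apply pow_two_odd
      intro h6
      apply hodd
      have h7 : Even K := by
        rw [hK]
        exact Even.pow_of_ne_zero (by decide) (by omega)
      have h8 : p = K - 2 ^ a2 := by linarith
      rw [h8]
      exact h7.sub h6
    subst ha2
    rw [pow_zero] at h3
    have hK1 : K = p + 1 := by linarith
    have hE2 : 2 ^ a1 * p ^ b1 = p * R p n := by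
      have h9 : (K - p) = 1 := by linarith
      rw [h, h9, zero_mul, add_zero, one_mul, R_succ'] at hE'
      linarith
    have hRn : 1 ≤ R p n := R_pos hp hn
    obtain rfl | ⟨b, rfl⟩ : b1 = 0 ∨ ∃ b, b1 = b + 1 := by
      cases b1 with
      | zero => exact Or.inl rfl
      | succ b => exact Or.inr ⟨b, rfl⟩
    · exfalso
      rw [pow_zero, mul_one] at hE2
      nlinarith
    have hE3 : 2 ^ a1 * p ^ b = R p n := by
      have h9 : p * (2 ^ a1 * p ^ b) = p * R p n := by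
        rw [← hE2]; ring
      exact mul_left_cancel₀ (by linarith) h9
    obtain rfl | ⟨n', hn', rfl⟩ : n = 1 ∨ ∃ n', 1 ≤ n' ∧ n = n' + 1 := by
      rcases Nat.lt_or_ge 1 n with h | h
      · exact Or.inr ⟨n - 1, by omega, by omega⟩
      · exact Or.inl (by omega)
    · have hb : b = 0 := by omega
      subst hb
      rw [pow_zero, mul_one, R_one] at hE3
      refine ⟨rfl, hK1, ?_, rfl, rfl⟩
      by_contra h0
      have h9 : Even ((2 : ℤ) ^ a1) := Even.pow_of_ne_zero (by decide) h0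
      rw [hE3] at h9
      exact absurd h9 (by decide)
    · exfalso
      have hRn' : 1 ≤ R p n' := R_pos hp hn'
      rw [R_succ'] at hE3
      obtain rfl | ⟨c, rfl⟩ : b = 0 ∨ ∃ c, b = c + 1 := by
        cases b with
        | zero => exact Or.inl rfl
        | succ b => exact Or.inr ⟨b, rfl⟩
      · rw [pow_zero, mul_one] at hE3
        nlinarith
      · have h9 : p ∣ 1 := by
          refine ⟨2 ^ a1 * p ^ c - R p n', ?_⟩
          rw [pow_succ] at hE3
          linarith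
        have := Int.le_of_dvd one_pos h9
        linarith
  · exfalso
    have e1 : 1 * p ^ (n + 1) ≤ s * p ^ (n + 1) := mul_le_mul_of_nonneg_right (by omega) (by positivity)
    have e2 : K - p ≤ p - 1 := by linarith
    have e3 : 0 ≤ R p (n + 1) := (R_pos hp (by omega)).trans' (by norm_num)
    have e4 : (K - p) * R p (n + 1) ≤ (p - 1) * R p (n + 1) := mul_le_mul_of_nonneg_right e2 e3
    linarith

lemma caseB2 (p K x y : ℤ) (n : ℕ) (hp : 3 ≤ p) (hx : 0 < x) (hy : 0 < y) (hxy : 4 * (x + y) ≤ 3 * K)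
    (hn : 1 ≤ n) (ht : p < K)
    (hE : (K - p) * R p (n + 2) = 1 + x * p ^ (n + 1) + y * p ^ (n + 1)) : False := by
  have hp1 : (1 : ℤ) ≤ p := by linarith
  have hg := R_geom p (n + 2)
  have e1 : K - 1 = p ^ (n + 1) * ((K - p) * p - (p - 1) * (x + y)) := by
    have : (p - 1) * ((K - p) * R p (n + 2)) = (K - p) * (p ^ (n + 2) - 1) := by rw [← hg]; ring
    rw [hE] at this
    have e : p ^ (n + 2) = p ^ (n + 1) * p := by ring
    rw [e] at this
    linarith
  have hq : 0 < p ^ (n + 1) := by positivity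
  have e2 : 1 ≤ (K - p) * p - (p - 1) * (x + y) := by
    by_contra h
    have h' : (K - p) * p - (p - 1) * (x + y) ≤ 0 := by omega
    have := mul_nonpos_of_nonneg_of_nonpos hq.le h'
    linarith
  have e3 : p ^ (n + 1) * 1 ≤ K - 1 := by
    rw [e1]
    exact mul_le_mul_of_nonneg_left e2 hq.le
  obtain ⟨q, hqq⟩ : ∃ q, q = p ^ n := ⟨_, rfl⟩
  have hqp : p ≤ q := by
    rw [hqq]
    calc p = p ^ 1 := (pow_one p).symm
      _ ≤ p ^ n := pow_le_pow_right₀ hp1 hn
  have e4 : p ^ (n + 1) = p * q := by rw [hqq]; ring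
  have e5 : R p (n + 2) = R p n + q + p * q := by rw [R_succ, R_succ, e4, hqq]
  have e6 : 1 ≤ R p n := R_pos hp hn
  have hp0 : 0 < p := by linarith
  have hq0 : 0 < q := by linarith
  have hpq0 : 0 < p * q := mul_pos hp0 hq0
  rw [e4] at e3 hE
  rw [e5] at hE
  have e7 : (K - p) * 1 ≤ (K - p) * R p n := mul_le_mul_of_nonneg_left e6 (by linarith)
  have e8 : (K - p) * (1 + q + p * q) ≤ 1 + (x + y) * (p * q) := by nlinarith
  have e9 : 4 * ((x + y) * (p * q)) ≤ 3 * K * (p * q) := by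
    have : (4 * (x + y)) * (p * q) ≤ (3 * K) * (p * q) := mul_le_mul_of_nonneg_right hxy (by positivity)
    linarith
  have e10 : K * (p * q + 4 * q + 4) ≤ 4 + 4 * p * (p * q + q + 1) := by nlinarith
  have e11 : (1 + p * q) * (p * q + 4 * q + 4) ≤ K * (p * q + 4 * q + 4) :=
    mul_le_mul_of_nonneg_right (by linarith) (by positivity)
  have e12 : p * (p * q) ≤ q * (p * q) := mul_le_mul_of_nonneg_right hqp (by positivity)
  have e13 : 0 < (p * q) * (p * q) := by positivity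
  nlinarith

lemma R_two_le {p : ℤ} (hp : 3 ≤ p) {n : ℕ} (hn : 1 ≤ n) : 1 + p ≤ R p (n + 1) := by
  have h := R_succ' p n
  have h1 : 1 ≤ R p n := R_pos hp hn
  have h2 : p * 1 ≤ p * R p n := mul_le_mul_of_nonneg_left h1 (by linarith)
  linarith

lemma R_three_le {p : ℤ} (hp : 3 ≤ p) {n : ℕ} (hn : 1 ≤ n) : 1 + p + p ^ 2 ≤ R p (n + 2) := by
  have h := R_succ' p (n + 1)
  have h1 := R_two_le hp hn
  have h2 : p * (1 + p) ≤ p * R p (n + 1) := mul_le_mul_of_nonneg_left h1 (by linarith)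
  nlinarith

lemma two_pow_split {a k : ℕ} (h : a ≤ k) :
    ∃ J : ℤ, 1 ≤ J ∧ (2 : ℤ) ^ (k + 1) = 2 ^ a * (2 * J) := by
  refine ⟨2 ^ (k - a), one_le_pow₀ (by norm_num), ?_⟩
  have : k + 1 = a + (1 + (k - a)) := by omega
  conv_lhs => rw [this]
  rw [pow_add, pow_add, pow_one]

/-- the equation multiplied by `p - 1` -/
lemma eqn {p K x y : ℤ} {m b : ℕ} (hE : (K - p) * R p m = 1 + x * p ^ b + y * p ^ m) :
    (K - p - (p - 1) * y) * p ^ m = (K - p) + (p - 1) * (1 + x * p ^ b) := by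
  have hg := R_geom p m
  linear_combination (p - 1) * hE - (K - p) * hg

lemma dvd1 {p K x y : ℤ} {m b : ℕ} (hb : b ≤ m)
    (hE : (K - p) * R p m = 1 + x * p ^ b + y * p ^ m) : p ^ b ∣ K - 1 := by
  obtain ⟨c, rfl⟩ : ∃ c, m = b + c := ⟨m - b, by omega⟩
  have h := eqn hE
  refine ⟨(K - p - (p - 1) * y) * p ^ c - (p - 1) * x, ?_⟩
  rw [pow_add] at h
  linear_combination -h

lemma caseC0 {p K x : ℤ} {m b a2 k : ℕ} (hp : 3 ≤ p) (hodd : Odd p) (hK : K = 2 ^ (k + 1))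
    (ha2 : a2 ≤ k) (hx : 0 < x) (ht : p < K)
    (hE : (K - p) * R p m = 1 + x * p ^ b + 2 ^ a2 * p ^ m) :
    1 ≤ K - p - (p - 1) * 2 ^ a2 ∧ (p + 1) * 2 ^ a2 ≤ K := by
  have h := eqn hE
  have hb : 0 < p ^ b := by positivity
  have hm : 0 < p ^ m := by positivity
  have hy : 0 < (2 : ℤ) ^ a2 := by positivity
  have hxb : 0 < x * p ^ b := mul_pos hx hb
  have h1 : 0 < (K - p) + (p - 1) * (1 + x * p ^ b) := by
    have : 0 < (p - 1) * (1 + x * p ^ b) := mul_pos (by linarith) (by linarith)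
    linarith
  have h2 : 0 < K - p - (p - 1) * 2 ^ a2 := by
    by_contra h3
    have := mul_nonpos_of_nonpos_of_nonneg (not_lt.1 h3) hm.le
    linarith
  refine ⟨by omega, ?_⟩
  obtain ⟨J, hJ, hKJ⟩ := two_pow_split ha2
  rw [← hK] at hKJ
  obtain ⟨r, hr⟩ := hodd
  have h4 : p - 1 < 2 * J := by
    by_contra h5
    have h6 : 2 ^ a2 * (2 * J) ≤ 2 ^ a2 * (p - 1) := mul_le_mul_of_nonneg_left (not_lt.1 h5) hy.le
    linarith
  have h5 : p + 1 ≤ 2 * J := by omega
  calc (p + 1) * 2 ^ a2 = 2 ^ a2 * (p + 1) := by ring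
    _ ≤ 2 ^ a2 * (2 * J) := mul_le_mul_of_nonneg_left h5 hy.le
    _ = K := hKJ.symm

lemma caseC1 {p K x : ℤ} {n b a2 k : ℕ} (hp : 3 ≤ p) (hodd : Odd p) (hK : K = 2 ^ (k + 1))
    (ha2 : a2 ≤ k) (hx : 0 < x) (hx2 : 2 * x ≤ K) (ht : p < K) (hn : 1 ≤ n) (hb : b ≤ n)
    (hE : (K - p) * R p (n + 2) = 1 + x * p ^ b + 2 ^ a2 * p ^ (n + 2)) : False := by
  obtain ⟨hu, hC0⟩ := caseC0 hp hodd hK ha2 hx ht hE
  have h := eqn hE
  obtain ⟨y, hy⟩ : ∃ y : ℤ, y = 2 ^ a2 := ⟨_, rfl⟩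
  have hy0 : 0 < y := by rw [hy]; positivity
  rw [← hy] at h hu hC0 hE
  have hp1 : (1 : ℤ) ≤ p := by linarith
  have hp0 : (0 : ℤ) < p := by linarith
  have hd := dvd1 (by omega : b ≤ n + 2) hE
  obtain ⟨q, hq⟩ : ∃ q, q = p ^ n := ⟨_, rfl⟩
  have hqp : p ≤ q := by
    rw [hq]
    calc p = p ^ 1 := (pow_one p).symm
      _ ≤ p ^ n := pow_le_pow_right₀ hp1 hn
  have hq0 : 0 < q := by linarith
  have e1 : p ^ (n + 2) = p ^ 2 * q := by rw [hq]; ring
  have e2 : p ^ b ≤ q := by rw [hq]; exact pow_le_pow_right₀ hp1 hb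
  have hb0 : 0 < p ^ b := by positivity
  rw [e1] at h
  have hpq : 0 < p ^ 2 * q := by positivity
  have e3 : 2 * (x * p ^ b) ≤ K * q := by
    calc 2 * (x * p ^ b) = (2 * x) * p ^ b := by ring
      _ ≤ K * p ^ b := mul_le_mul_of_nonneg_right hx2 hb0.le
      _ ≤ K * q := mul_le_mul_of_nonneg_left e2 (by linarith)
  -- the upper bound for K
  have e4 : 2 * K - p * (p + 1) ≤ (p + 1) * (K - p - (p - 1) * y) := by
    have : (p - 1) * ((p + 1) * y) ≤ (p - 1) * K := mul_le_mul_of_nonneg_left hC0 (by linarith)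
    nlinarith
  have e5 : (2 * K - p * (p + 1)) * (p ^ 2 * q) ≤ (p + 1) * ((K - p) + (p - 1) * (1 + x * p ^ b)) := by
    rw [← h]
    calc (2 * K - p * (p + 1)) * (p ^ 2 * q)
        ≤ ((p + 1) * (K - p - (p - 1) * y)) * (p ^ 2 * q) := mul_le_mul_of_nonneg_right e4 hpq.le
      _ = _ := by ring
  have e6 : (p + 1) * (p - 1) * (2 * (x * p ^ b)) ≤ (p + 1) * (p - 1) * (K * q) :=
    mul_le_mul_of_nonneg_left e3 (mul_nonneg (by linarith) (by linarith))
  have e7 : K * (3 * p ^ 2 * q + q - 2 * p - 2) ≤ 2 * (p + 1) * (p ^ 3 * q - 1) := by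
    linarith
  have hK2 : K ≤ p ^ 2 := by
    by_contra h8
    have h9 : p ^ 2 + 1 ≤ K := by omega
    have h10 : 0 < 3 * p ^ 2 * q + q - 2 * p - 2 := by nlinarith
    have h11 : (p ^ 2 + 1) * (3 * p ^ 2 * q + q - 2 * p - 2) ≤ K * (3 * p ^ 2 * q + q - 2 * p - 2) :=
      mul_le_mul_of_nonneg_right h9 h10.le
    have h12 : p ^ 2 * p ≤ p ^ 2 * q := mul_le_mul_of_nonneg_left hqp (by positivity)
    have h13 : 7 ≤ p ^ 2 - 2 * p + 4 := by nlinarith
    have h14 : (p ^ 2 * q) * 7 ≤ (p ^ 2 * q) * (p ^ 2 - 2 * p + 4) := mul_le_mul_of_nonneg_left h13 hpq.le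
    have h15 : p ^ 2 * 3 ≤ p ^ 2 * p := mul_le_mul_of_nonneg_left hp (by positivity)
    have h16 : 0 < p ^ 2 := by positivity
    linarith
  obtain rfl | rfl | hb2 : b = 0 ∨ b = 1 ∨ 2 ≤ b := by omega
  · -- b = 0
    rw [pow_zero, mul_one] at h
    have h1 : 1 * (p ^ 2 * q) ≤ (K - p - (p - 1) * y) * (p ^ 2 * q) := mul_le_mul_of_nonneg_right hu hpq.le
    have h2 : (p - 1) * (2 * x) ≤ (p - 1) * K := mul_le_mul_of_nonneg_left hx2 (by linarith)
    have h3 : (p + 1) * K ≤ (p + 1) * p ^ 2 := mul_le_mul_of_nonneg_left hK2 (by linarith)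
    have h4 : p ^ 2 * p ≤ p ^ 2 * q := mul_le_mul_of_nonneg_left hqp (by positivity)
    nlinarith
  · -- b = 1
    obtain ⟨e, he⟩ := hd
    rw [pow_one] at he
    have he1 : 1 ≤ e := by
      by_contra h0
      have : p * e ≤ p * 0 := mul_le_mul_of_nonneg_left (by omega) hp0.le
      linarith
    have hR1 := R_succ' p (n + 1)
    have hR2 := R_succ p (n + 1)
    have hR3 := R_two_le hp hn
    have hg := R_geom p (n + 1)
    have e8 : e * R p (n + 2) = x + (y + 1) * p ^ (n + 1) := by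
      have h1 : p * (e * R p (n + 2)) = p * (x + (y + 1) * p ^ (n + 1)) := by
        have h2 : p ^ (n + 2) = p * p ^ (n + 1) := by ring
        rw [h2, pow_one] at hE
        have h3 : K = p * e + 1 := by linarith
        rw [h3] at hE
        have h4 : (p - 1) * R p (n + 2) = p ^ (n + 2) - 1 := R_geom p (n + 2)
        rw [h2] at h4
        linear_combination hE + h4
      exact mul_left_cancel₀ hp0.ne' h1
    have hP : 0 < p ^ (n + 1) := by positivity
    rcases le_or_gt e y with h1 | h1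
    · have h2 : (p + 1) * e ≤ (p + 1) * y := mul_le_mul_of_nonneg_left h1 (by linarith)
      have h3 : e = 1 := by linarith
      subst h3
      have h4 : y = 1 := by
        by_contra h5
        have h6 : 2 ≤ y := by omega
        have h7 : (p + 1) * 2 ≤ (p + 1) * y := mul_le_mul_of_nonneg_left h6 (by linarith)
        linarith
      subst h4
      have h5 : R p (n + 1) ≤ (p - 1) * R p (n + 1) := by
        have : 1 * R p (n + 1) ≤ (p - 1) * R p (n + 1) :=
          mul_le_mul_of_nonneg_right (by linarith) (by linarith)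
        linarith
      have hR2' : R p (n + 2) = R p (n + 1) + p ^ (n + 1) := hR2
      linarith
    · have h2 : (y + 1) * p ^ (n + 1) ≤ e * p ^ (n + 1) := mul_le_mul_of_nonneg_right (by omega) hP.le
      have h3 : e * (1 + p) ≤ e * R p (n + 1) := mul_le_mul_of_nonneg_left hR3 (by linarith)
      have h4 : e * R p (n + 2) = e * R p (n + 1) + e * p ^ (n + 1) := by
        have hR2' : R p (n + 2) = R p (n + 1) + p ^ (n + 1) := hR2
        rw [hR2']; ring
      have h5 : 0 < p * e := mul_pos hp0 (by linarith)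
      linarith
  · have h1 : p ^ 2 ∣ K - 1 := (pow_dvd_pow p hb2).trans hd
    have h2 := Int.le_of_dvd (by linarith) h1
    linarith

lemma caseC2 {p K : ℤ} {n a1 a2 k : ℕ} (hp : 3 ≤ p) (hodd : Odd p) (hK : K = 2 ^ (k + 1))
    (ha1 : a1 ≤ k) (ha2 : a2 ≤ k) (ht : p < K) (hn : 1 ≤ n)
    (hE : (K - p) * R p (n + 2) = 1 + 2 ^ a1 * p ^ (n + 1) + 2 ^ a2 * p ^ (n + 2)) : False := by
  obtain ⟨x, hx⟩ : ∃ x : ℤ, x = 2 ^ a1 := ⟨_, rfl⟩
  obtain ⟨y, hy⟩ : ∃ y : ℤ, y = 2 ^ a2 := ⟨_, rfl⟩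
  have hx0 : 0 < x := by rw [hx]; positivity
  have hy0 : 0 < y := by rw [hy]; positivity
  rw [← hx] at hE
  obtain ⟨hu, hC0⟩ := caseC0 hp hodd hK ha2 hx0 ht hE
  rw [← hy] at hu hC0 hE
  have hp1 : (1 : ℤ) ≤ p := by linarith
  have hp0 : (0 : ℤ) < p := by linarith
  obtain ⟨e, he⟩ := dvd1 (by omega : n + 1 ≤ n + 2) hE
  have hP : 0 < p ^ (n + 1) := by positivity
  have he1 : 1 ≤ e := by
    by_contra h0
    have : p ^ (n + 1) * e ≤ p ^ (n + 1) * 0 := mul_le_mul_of_nonneg_left (by omega) hP.le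
    linarith
  have hR1 : R p (n + 2) = p * R p (n + 1) + 1 := R_succ' p (n + 1)
  have hR3 := R_two_le hp hn
  have hg := R_geom p (n + 1)
  have hg2 := R_geom p (n + 2)
  have hpp : p ^ (n + 2) = p * p ^ (n + 1) := by ring
  have hK3 : K = p ^ (n + 1) * e + 1 := by linarith
  have e8 : e * R p (n + 2) = x + p * (y + 1) := by
    have h1 : p ^ (n + 1) * (e * R p (n + 2)) = p ^ (n + 1) * (x + p * (y + 1)) := by
      have hE2 := hE
      rw [hpp, hK3] at hE2
      rw [hpp] at hg2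
      linear_combination hE2 + hg2
    exact mul_left_cancel₀ hP.ne' h1
  obtain ⟨D, hD⟩ : ∃ D : ℤ, D = e * R p (n + 1) - (p + 1) := ⟨_, rfl⟩
  have hD0 : 0 ≤ D := by
    have h1 : e * (1 + p) ≤ e * R p (n + 1) := mul_le_mul_of_nonneg_left hR3 (by linarith)
    have h2 : 1 * (1 + p) ≤ e * (1 + p) := mul_le_mul_of_nonneg_right he1 (by linarith)
    linarith
  have hxD : x = e + p * (D + p - y) := by
    rw [hR1] at e8
    rw [hD]
    linear_combination -e8
  have hKD : K = e + p ^ 2 + (p - 1) * D := by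
    rw [hK3, hD]
    linear_combination -e * hg
  have hKx : x = K - p * y + D := by
    rw [hxD, hKD]; ring
  have hxy : y ≤ x := by linarith
  -- divisibilities
  have h21 : a2 ≤ a1 := by
    by_contra h0
    have : (2 : ℤ) ^ a1 < 2 ^ a2 := pow_lt_pow_right₀ (by norm_num) (not_le.1 h0)
    linarith
  have d1 : y ∣ x := by rw [hx, hy]; exact pow_dvd_pow 2 h21
  have d2 : y ∣ K := by rw [hK, hy]; exact pow_dvd_pow 2 (by omega)
  have d3 : y ∣ D := by
    have : D = x - K + p * y := by linarith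
    rw [this]
    exact (d1.sub d2).add (Dvd.intro_left p rfl)
  obtain ⟨J1, hJ1, hKJ1⟩ := two_pow_split ha1
  rw [← hK, ← hx] at hKJ1
  have hx2 : 2 * x ≤ K := by
    have : x * 2 ≤ x * (2 * J1) := mul_le_mul_of_nonneg_left (by linarith) hx0.le
    linarith
  obtain ⟨c, hc⟩ := d3
  have hc0 : 0 ≤ c := by
    by_contra h0
    have : y * c ≤ y * (-1) := mul_le_mul_of_nonneg_left (by omega) hy0.le
    linarith
  obtain rfl | rfl | hc2 : c = 0 ∨ c = 1 ∨ 2 ≤ c := by omega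
  · -- D = 0
    have hDz : e * R p (n + 1) = p + 1 := by linarith
    have h1 : e = 1 := by
      by_contra h0
      have h2 : 2 ≤ e := by omega
      have h3 : 2 * R p (n + 1) ≤ e * R p (n + 1) := mul_le_mul_of_nonneg_right h2 (by linarith)
      linarith
    subst h1
    have hK4 : K = 1 + p ^ 2 := by rw [hKD, hc]; ring
    obtain ⟨r, hr⟩ := hodd
    have hk : 1 ≤ k := by
      by_contra h0
      have : k = 0 := by omega
      subst this
      norm_num at hK
      linarith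
    obtain ⟨k', rfl⟩ : ∃ k', k = k' + 1 := ⟨k - 1, by omega⟩
    have h5 : K = 4 * 2 ^ k' := by rw [hK]; ring
    have h6 : 4 * (2 : ℤ) ^ k' = 2 + 4 * (r ^ 2 + r) := by
      rw [← h5, hK4, hr]; ring
    omega
  · -- D = y
    rw [mul_one] at hc
    have hx4 : x = e + p ^ 2 := by rw [hxD, hc]; ring
    have hK4 : K = x + (p - 1) * y := by rw [hKx, hc]; ring
    have hne : x ≠ y := by
      intro h0
      rw [h0] at hK4
      linarith
    obtain ⟨l, hl⟩ := d1
    have hl2 : 2 ≤ l := by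
      by_contra h0
      obtain h1 | rfl : l ≤ 0 ∨ l = 1 := by omega
      · have : y * l ≤ y * 0 := mul_le_mul_of_nonneg_left h1 hy0.le
        linarith
      · exact hne (by linarith)
    have hx5 : 2 * y ≤ x := by
      have : y * 2 ≤ y * l := mul_le_mul_of_nonneg_left hl2 hy0.le
      linarith
    -- L = 2 * J1
    obtain ⟨L, hL⟩ : ∃ L, L = 2 * J1 := ⟨_, rfl⟩
    rw [← hL] at hKJ1
    have h1 : 2 * (L - 1) ≤ p - 1 := by
      have h2 : x * (2 * (L - 1)) ≤ x * (p - 1) := by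
        have h3 : (p - 1) * (2 * y) ≤ (p - 1) * x := mul_le_mul_of_nonneg_left hx5 (by linarith)
        have h4 : x * (L - 1) = (p - 1) * y := by linarith
        linarith
      exact le_of_mul_le_mul_left h2 hx0
    have h2 : p ^ 2 ∣ L * e - 1 := by
      have h3 : p ^ 2 ∣ K - 1 := by
        rw [hK3]
        obtain ⟨n', rfl⟩ : ∃ n', n = n' + 1 := ⟨n - 1, by omega⟩
        exact ⟨p ^ n' * e, by ring⟩
      have h4 : L * e - 1 = (K - 1) - p ^ 2 * L := by
        rw [hKJ1, hx4]; ring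
      rw [h4]
      exact h3.sub (Dvd.intro L rfl)
    have h3 : 2 * 1 ≤ L * e := by
      have : 2 * 1 ≤ 2 * J1 * e := by
        have h5 : 2 * J1 * 1 ≤ 2 * J1 * e := mul_le_mul_of_nonneg_left he1 (by linarith)
        linarith
      rw [hL]; exact this
    have h4 := Int.le_of_dvd (by linarith) h2
    have h5 : e * (1 + p) ≤ e * R p (n + 1) := mul_le_mul_of_nonneg_left hR3 (by linarith)
    have h6 : e * (2 * p + 1) ≤ p ^ 2 + 2 * p + 2 := by linarith
    have h7 : 2 * (L * e) ≤ (p + 1) * e := by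
      have : 2 * L * e ≤ (p + 1) * e := mul_le_mul_of_nonneg_right (by linarith) (by linarith)
      linarith
    have h8 : 2 * (p ^ 2 + 1) * (2 * p + 1) ≤ (p + 1) * e * (2 * p + 1) :=
      mul_le_mul_of_nonneg_right (by linarith) (by linarith)
    have h9 : (p + 1) * (e * (2 * p + 1)) ≤ (p + 1) * (p ^ 2 + 2 * p + 2) :=
      mul_le_mul_of_nonneg_left h6 (by linarith)
    have h10 : p ^ 2 * 3 ≤ p ^ 2 * p := mul_le_mul_of_nonneg_left hp (by positivity)
    have h11 : 0 < p ^ 2 := by positivity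
    linarith
  · -- D ≥ 2 y
    have h1 : 2 * y ≤ D := by
      have : y * 2 ≤ y * c := mul_le_mul_of_nonneg_left hc2 hy0.le
      linarith
    have h2 : p * (2 * y) ≤ p * D := mul_le_mul_of_nonneg_left h1 hp0.le
    have h3 : 0 < p ^ 2 := by positivity
    linarith

lemma caseC3 {p K : ℤ} {n a1 a2 k : ℕ} (hp : 3 ≤ p) (hodd : Odd p) (hK : K = 2 ^ (k + 1))
    (ha2 : a2 ≤ k) (h12 : a1 < a2) (hn : 1 ≤ n)
    (hE : (K - p) * R p (n + 2) = 1 + 2 ^ a1 * p ^ (n + 2) + 2 ^ a2 * p ^ (n + 2)) (ht : p < K) :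
    False := by
  obtain ⟨x, hx⟩ : ∃ x : ℤ, x = 2 ^ a1 := ⟨_, rfl⟩
  obtain ⟨y, hy⟩ : ∃ y : ℤ, y = 2 ^ a2 := ⟨_, rfl⟩
  have hx0 : 0 < x := by rw [hx]; positivity
  have hy0 : 0 < y := by rw [hy]; positivity
  rw [← hx, ← hy] at hE
  have hp0 : (0 : ℤ) < p := by linarith
  have h := eqn hE
  have hg := R_geom p (n + 2)
  have hR := R_three_le hp hn
  obtain ⟨f, hf⟩ : ∃ f : ℤ, f = K - p - (p - 1) * (x + y) := ⟨_, rfl⟩
  have hP : 0 < p ^ (n + 2) := by positivity
  have e1 : f * p ^ (n + 2) = K - 1 := by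
    rw [hf]; linear_combination h
  have hf1 : 1 ≤ f := by
    by_contra h0
    have : f * p ^ (n + 2) ≤ 0 * p ^ (n + 2) := mul_le_mul_of_nonneg_right (by omega) hP.le
    linarith
  have e2 : f * R p (n + 2) = x + y + 1 := by
    have h1 : (p - 1) * (f * R p (n + 2)) = (p - 1) * (x + y + 1) := by
      linear_combination f * hg + e1 - hf
    exact mul_left_cancel₀ (by linarith) h1
  obtain ⟨r, hr⟩ := hodd
  have d1 : 2 * x ∣ y := by
    rw [hx, hy]
    have : (2 : ℤ) * 2 ^ a1 = 2 ^ (a1 + 1) := by ring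
    rw [this]
    exact pow_dvd_pow 2 (by omega)
  have d2 : 2 * x ∣ K := by
    rw [hx, hK]
    have : (2 : ℤ) * 2 ^ a1 = 2 ^ (a1 + 1) := by ring
    rw [this]
    exact pow_dvd_pow 2 (by omega)
  have d3 : 2 * x ∣ f + p := by
    have : f + p = K - 2 * x * r - (p - 1) * y := by
      rw [hf, hr]; ring
    rw [this]
    exact (d2.sub (Dvd.intro r rfl)).sub (d1.mul_left _)
  have d4 : y ∣ K := by rw [hK, hy]; exact pow_dvd_pow 2 (by omega)
  have d5 : y ∣ f + p + (p - 1) * x := by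
    have : f + p + (p - 1) * x = K - (p - 1) * y := by
      rw [hf]; ring
    rw [this]
    exact d4.sub (Dvd.intro_left _ rfl)
  have i1 := Int.le_of_dvd (by linarith) d3
  have i2 : y ≤ f + p + (p - 1) * x := by
    refine Int.le_of_dvd ?_ d5
    have : 0 < (p - 1) * x := mul_pos (by linarith) hx0
    linarith
  have i3 : f * (1 + p + p ^ 2) ≤ f * R p (n + 2) := mul_le_mul_of_nonneg_left hR (by linarith)
  have i4 : p * (2 * x) ≤ p * (f + p) := mul_le_mul_of_nonneg_left i1 hp0.le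
  have i5 : 1 * (p + 2 * p ^ 2) ≤ f * (p + 2 * p ^ 2) :=
    mul_le_mul_of_nonneg_right hf1 (by positivity)
  nlinarith

/-- the arithmetic core: `m ≥ 3` -/
theorem core (p k a1 a2 b1 b2 m : ℕ) (hp : p.Prime) (hp2 : p ≠ 2) (hm : 3 ≤ m) (h1 : a1 ≤ k)
    (h2 : a2 ≤ k) (h3 : b1 ≤ b2) (h4 : b2 ≤ m) (h5 : ¬ (a1 = a2 ∧ b1 = b2)) (ht : p < 2 ^ (k + 1))
    (hE : (2 ^ (k + 1) - p) * ∑ i ∈ range m, p ^ i = 1 + 2 ^ a1 * p ^ b1 + 2 ^ a2 * p ^ b2) :
    m = 3 ∧ 2 ^ (k + 1) = p + 1 ∧ a1 = 0 ∧ b1 = 1 ∧ a2 = 0 ∧ b2 = 2 := by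
  obtain ⟨n, hn, rfl⟩ : ∃ n, 1 ≤ n ∧ m = n + 2 := ⟨m - 2, by omega, by omega⟩
  have hp3 : 3 ≤ p := by
    have := hp.two_le
    omega
  have hoddN : Odd p := hp.odd_of_ne_two hp2
  obtain ⟨P, hP⟩ : ∃ P : ℤ, P = (p : ℤ) := ⟨_, rfl⟩
  obtain ⟨K, hK⟩ : ∃ K : ℤ, K = 2 ^ (k + 1) := ⟨_, rfl⟩
  have hP3 : 3 ≤ P := by rw [hP]; exact_mod_cast hp3
  have hodd : Odd P := by rw [hP]; exact_mod_cast hoddN
  have htz : P < K := by rw [hP, hK]; exact_mod_cast ht
  have hEz : (K - P) * R P (n + 2) = 1 + 2 ^ a1 * P ^ b1 + 2 ^ a2 * P ^ b2 := by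
    have h := congrArg (Nat.cast : ℕ → ℤ) hE
    rw [Nat.cast_mul, Nat.cast_sub ht.le] at h
    push_cast at h
    rw [hP, hK]
    exact h
  have hx : 0 < (2 : ℤ) ^ a1 := by positivity
  have hy : 0 < (2 : ℤ) ^ a2 := by positivity
  have hx2 : 2 * (2 : ℤ) ^ a1 ≤ K := by
    have : (2 : ℤ) * 2 ^ a1 = 2 ^ (a1 + 1) := by ring
    rw [this, hK]
    exact pow_le_pow_right₀ (by norm_num) (by omega)
  have hy2 : 2 * (2 : ℤ) ^ a2 ≤ K := by
    have : (2 : ℤ) * 2 ^ a2 = 2 ^ (a2 + 1) := by ring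
    rw [this, hK]
    exact pow_le_pow_right₀ (by norm_num) (by omega)
  rcases Nat.lt_or_ge n b2 with hb | hb
  · obtain rfl | rfl : b2 = n + 1 ∨ b2 = n + 2 := by omega
    · rcases Nat.lt_or_ge n b1 with hb' | hb'
      · -- B2
        exfalso
        obtain rfl : b1 = n + 1 := by omega
        have hne : a1 ≠ a2 := fun h => h5 ⟨h, rfl⟩
        refine caseB2 P K _ _ n hP3 hx hy ?_ hn htz hEz
        rcases lt_or_gt_of_ne hne with h | h
        · have h6 : 2 * (2 : ℤ) ^ a1 ≤ 2 ^ a2 := by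
            have : (2 : ℤ) * 2 ^ a1 = 2 ^ (a1 + 1) := by ring
            rw [this]
            exact pow_le_pow_right₀ (by norm_num) (by omega)
          linarith
        · have h6 : 2 * (2 : ℤ) ^ a2 ≤ 2 ^ a1 := by
            have : (2 : ℤ) * 2 ^ a2 = 2 ^ (a2 + 1) := by ring
            rw [this]
            exact pow_le_pow_right₀ (by norm_num) (by omega)
          linarith
      · -- B1
        obtain ⟨g1, g2, g3, g4, g5⟩ := caseB1 P K n b1 a1 a2 k hP3
          (Int.not_even_iff_odd.2 hodd) hK hx2 hy2 hn hb' htz hEz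
        subst g1
        refine ⟨rfl, ?_, g3, g4, g5, rfl⟩
        rw [hP, hK] at g2
        exact_mod_cast g2
    · exfalso
      rcases Nat.lt_or_ge n b1 with hb' | hb'
      · obtain rfl | rfl : b1 = n + 1 ∨ b1 = n + 2 := by omega
        · exact caseC2 hP3 hodd hK h1 h2 htz hn hEz
        · have hne : a1 ≠ a2 := fun h => h5 ⟨h, rfl⟩
          rcases lt_or_gt_of_ne hne with h | h
          · exact caseC3 hP3 hodd hK h2 h hn hEz htz
          · refine caseC3 hP3 hodd hK h1 h hn ?_ htz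
            rw [hEz]; ring
      · exact caseC1 hP3 hodd hK h2 hx hx2 htz hn hb' hEz
  · exfalso
    refine caseA P K _ _ n b1 b2 hP3 hx hy hx2 hy2 hn h3 hb ?_ htz hEz
    rcases Nat.lt_or_ge b1 b2 with h | h
    · exact Or.inl h
    · refine Or.inr fun h6 => h5 ⟨?_, by omega⟩
      exact Nat.pow_right_injective le_rfl (by exact_mod_cast h6)

end Pool.Agent.P8H24.NP
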