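import Pool.Agent.P8H24.NP.Core

/-!
# 2-near perfect numbers `2^k p^2`: the arithmetic core (helper24)
-/

set_option autoImplicit false

namespace Pool.Agent.P8H24.NP

lemma pow_lt_pow_two {a b : ℕ} (h : a < b) : 2 * (2 : ℤ) ^ a ≤ 2 ^ b := by
  have : (2 : ℤ) * 2 ^ a = 2 ^ (a + 1) := by ring
  rw [this]
  exact pow_le_pow_right₀ (by norm_num) (by omega)

lemma pow_le_pow_two {a b : ℕ} (h : (2 : ℤ) ^ a < 2 ^ b) : a < b := by
  by_contra h0
  have : (2 : ℤ) ^ b ≤ 2 ^ a := pow_le_pow_right₀ (by norm_num) (not_lt.1 h0)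
  linarith

/-- a power of two that divides an odd number is one -/
lemma pow_two_dvd_odd {a : ℕ} {z : ℤ} (hz : Odd z) (h : (2 : ℤ) ^ a ∣ z) : a = 0 := by
  by_contra h0
  have h1 : (2 : ℤ) ∣ z := (dvd_pow_self 2 h0).trans h
  exact (Int.not_even_iff_odd.2 hz) (even_iff_two_dvd.2 h1)

lemma odd3 {p : ℤ} (h : Odd p) : Odd (1 + p + p ^ 2) := by
  obtain ⟨r, hr⟩ := h
  exact ⟨1 + 3 * r + 2 * r ^ 2, by rw [hr]; ring⟩

/-- `1 + p^2` is not a power of two -/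
lemma one_add_sq {p : ℤ} {k : ℕ} (hp : 3 ≤ p) (h : Odd p) (hK : (2 : ℤ) ^ (k + 1) = 1 + p ^ 2) : False := by
  obtain ⟨r, hr⟩ := h
  have hk : 1 ≤ k := by
    by_contra h0
    have : k = 0 := by omega
    subst this
    norm_num at hK
    nlinarith
  obtain ⟨k', rfl⟩ : ∃ k', k = k' + 1 := ⟨k - 1, by omega⟩
  have h6 : 4 * (2 : ℤ) ^ k' = 2 + 4 * (r ^ 2 + r) := by
    have : (4 : ℤ) * 2 ^ k' = 2 ^ (k' + 1 + 1) := by ring
    rw [this, hK, hr]; ring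
  omega

lemma m2_00 {p K : ℤ} {a1 a2 k : ℕ} (hp : 3 ≤ p) (hodd : Odd p) (hK : K = 2 ^ (k + 1)) (h1 : a1 ≤ k)
    (h2 : a2 ≤ k) (h12 : a1 < a2) (ht : p < K)
    (hE : (K - p) * (1 + p) = 1 + 2 ^ a1 + 2 ^ a2) : p = 3 ∧ K = 4 := by
  have e1 := pow_lt_pow_two h12
  have e2 : 2 * (2 : ℤ) ^ a2 ≤ K := by rw [hK]; exact pow_lt_pow_two (by omega)
  obtain ⟨t, htt⟩ : ∃ t, t = K - p := ⟨_, rfl⟩
  rw [← htt] at hE
  have e3 : t * (1 + 4 * p) ≤ 4 + 3 * p := by linarith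
  have e4 : t ≤ 1 := by
    by_contra h0
    have : 2 * (1 + 4 * p) ≤ t * (1 + 4 * p) := mul_le_mul_of_nonneg_right (by omega) (by linarith)
    linarith
  have e5 : t = 1 := by omega
  rw [e5] at e3
  have e6 : p = 3 := by linarith
  exact ⟨e6, by linarith⟩

lemma m2_01 {p K : ℤ} {a1 a2 k : ℕ} (hp : 3 ≤ p) (hodd : Odd p) (hK : K = 2 ^ (k + 1)) (h1 : a1 ≤ k)
    (h2 : a2 ≤ k) (ht : p < K)
    (hE : (K - p) * (1 + p) = 1 + 2 ^ a1 + 2 ^ a2 * p) : False := by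
  have e1 : 2 * (2 : ℤ) ^ a1 ≤ K := by rw [hK]; exact pow_lt_pow_two (by omega)
  have e2 : 2 * (2 : ℤ) ^ a2 ≤ K := by rw [hK]; exact pow_lt_pow_two (by omega)
  have hx : 1 ≤ (2 : ℤ) ^ a1 := one_le_pow₀ (by norm_num)
  have hy : 1 ≤ (2 : ℤ) ^ a2 := one_le_pow₀ (by norm_num)
  obtain ⟨t, htt⟩ : ∃ t, t = K - p := ⟨_, rfl⟩
  rw [← htt] at hE
  have e3 : p * (t - 2 ^ a2) = 1 + 2 ^ a1 - t := by linarith
  rcases lt_trichotomy t (2 ^ a2) with h | h | h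
  · have : p * (t - 2 ^ a2) ≤ p * (-1) := mul_le_mul_of_nonneg_left (by omega) (by linarith)
    linarith
  · rw [h, sub_self, mul_zero] at e3
    have h3 : a1 < a2 := pow_le_pow_two (by linarith)
    have h4 := pow_lt_pow_two h3
    have h5 : (2 : ℤ) ^ a2 = 2 := by linarith
    have h6 : K = p + 2 := by linarith
    obtain ⟨r, hr⟩ := hodd
    have h7 : (2 : ℤ) ^ (k + 1) = 2 * 2 ^ k := by ring
    omega
  · have : p * 1 ≤ p * (t - 2 ^ a2) := mul_le_mul_of_nonneg_left (by omega) (by linarith)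
    linarith

lemma m2_11 {p K : ℤ} {a1 a2 k : ℕ} (hp : 3 ≤ p) (hp9 : p ≠ 9) (hodd : Odd p) (hK : K = 2 ^ (k + 1))
    (h1 : a1 ≤ k) (h2 : a2 ≤ k) (h12 : a1 < a2) (ht : p < K)
    (hE : (K - p) * (1 + p) = 1 + 2 ^ a1 * p + 2 ^ a2 * p) : False := by
  have e1 := pow_lt_pow_two h12
  have e2 : 2 * (2 : ℤ) ^ a2 ≤ K := by rw [hK]; exact pow_lt_pow_two (by omega)
  have hx : 1 ≤ (2 : ℤ) ^ a1 := one_le_pow₀ (by norm_num)
  -- K = 1 + p e
  obtain ⟨e, he⟩ : ∃ e, e = 2 ^ a1 + 2 ^ a2 + 1 + p - K := ⟨_, rfl⟩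
  have hKe : K = 1 + p * e := by rw [he]; linear_combination hE
  have hs : 2 ^ a1 + 2 ^ a2 = 1 + (e - 1) * (1 + p) := by rw [hKe] at he; linear_combination -he
  have h7 : (2 : ℤ) ^ (k + 1) = 2 * 2 ^ k := by ring
  have e3 : e * (4 + p) ≤ 3 + 4 * p := by linarith
  have e4 : e ≤ 3 := by
    by_contra h0
    have : 4 * (4 + p) ≤ e * (4 + p) := mul_le_mul_of_nonneg_right (by omega) (by linarith)
    linarith
  have e5 : 1 < e := by
    by_contra h0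
    have : (e - 1) * (1 + p) ≤ 0 * (1 + p) := mul_le_mul_of_nonneg_right (by omega) (by linarith)
    linarith
  obtain rfl | rfl : e = 2 ∨ e = 3 := by omega
  · omega
  · -- K = 1 + 3 p, x + y = 3 + 2 p
    have h3 : k = a2 := by
      by_contra h0
      have h4 : 2 * (2 : ℤ) ^ a2 ≤ 2 ^ k := pow_lt_pow_two (by omega)
      linarith
    subst h3
    obtain ⟨J, hJ, hKJ⟩ := two_pow_split h1
    obtain ⟨J2, hJ2, hKJ2⟩ : ∃ J2 : ℤ, 1 ≤ J2 ∧ (2 : ℤ) ^ (k + 1) = 2 ^ a1 * (4 * J2) := by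
      refine ⟨2 ^ (k - 1 - a1), one_le_pow₀ (by norm_num), ?_⟩
      have : k + 1 = a1 + (2 + (k - 1 - a1)) := by omega
      conv_lhs => rw [this]
      rw [pow_add, pow_add]
      norm_num
    have h4 : 2 * (2 : ℤ) ^ a1 = 5 + p := by linarith
    have h5 : (5 + p) * (4 * J2) = 2 + 6 * p := by
      rw [← h4]
      linarith
    have h6 : J2 = 1 := by
      by_contra h0
      have : (5 + p) * (4 * 2) ≤ (5 + p) * (4 * J2) := mul_le_mul_of_nonneg_left (by omega) (by linarith)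
      linarith
    rw [h6] at h5
    apply hp9
    linarith

lemma m2_02 {p K : ℤ} {a1 a2 k : ℕ} (hp : 3 ≤ p) (hodd : Odd p) (hK : K = 2 ^ (k + 1)) (h1 : a1 ≤ k)
    (h2 : a2 ≤ k) (ht : p < K)
    (hE : (K - p) * (1 + p) = 1 + 2 ^ a1 + 2 ^ a2 * p ^ 2) : p = 3 ∧ K = 8 := by
  have e1 : 2 * (2 : ℤ) ^ a1 ≤ K := by rw [hK]; exact pow_lt_pow_two (by omega)
  have hx : 1 ≤ (2 : ℤ) ^ a1 := one_le_pow₀ (by norm_num)
  have hy : 1 ≤ (2 : ℤ) ^ a2 := one_le_pow₀ (by norm_num)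
  have h7 : (2 : ℤ) ^ (k + 1) = 2 * 2 ^ k := by ring
  have hC := caseC0 (p := p) (K := K) (x := 2 ^ a1) (m := 2) (b := 0) (a2 := a2) (k := k) hp hodd hK h2
    (by linarith) ht (by rw [R_two, pow_zero, mul_one]; exact hE)
  obtain ⟨-, hC0⟩ := hC
  have hmain : K * (1 + p) = 1 + p + p ^ 2 + 2 ^ a1 + 2 ^ a2 * p ^ 2 := by linarith
  rcases le_total a1 a2 with h | h
  · -- x = 1
    have d : (2 : ℤ) ^ a1 ∣ 1 + p + p ^ 2 := by
      have d1 : (2 : ℤ) ^ a1 ∣ K := by rw [hK]; exact pow_dvd_pow 2 (by omega)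
      have d2 : (2 : ℤ) ^ a1 ∣ 2 ^ a2 := pow_dvd_pow 2 h
      have : 1 + p + p ^ 2 = K * (1 + p) - 2 ^ a1 - 2 ^ a2 * p ^ 2 := by linarith
      rw [this]
      exact ((d1.mul_right _).sub dvd_rfl).sub (d2.mul_right _)
    have h0 := pow_two_dvd_odd (odd3 hodd) d
    subst h0
    rw [pow_zero] at hmain
    have d3 : 1 + p ∣ 2 ^ a2 + 2 := by
      refine ⟨K - p - (p - 1) * 2 ^ a2, ?_⟩
      linear_combination -hmain
    have i1 := Int.le_of_dvd (by linarith) d3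
    have i2 : (p + 1) * ((p + 1) * 2 ^ a2) ≤ (p + 1) * K := mul_le_mul_of_nonneg_left hC0 (by linarith)
    have i3 : 2 ^ a2 * (2 * p + 1) ≤ 2 + p + p ^ 2 := by linarith
    have i4 : (p - 1) * (2 * p + 1) ≤ 2 ^ a2 * (2 * p + 1) := mul_le_mul_of_nonneg_right (by linarith) (by linarith)
    have i5 : p = 3 := by nlinarith
    subst i5
    have i6 : (2 : ℤ) ^ a2 = 2 := by omega
    exact ⟨rfl, by linarith⟩
  · exfalso
    have d : (2 : ℤ) ^ a2 ∣ 1 + p + p ^ 2 := by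
      have d1 : (2 : ℤ) ^ a2 ∣ K := by rw [hK]; exact pow_dvd_pow 2 (by omega)
      have d2 : (2 : ℤ) ^ a2 ∣ 2 ^ a1 := pow_dvd_pow 2 h
      have : 1 + p + p ^ 2 = K * (1 + p) - 2 ^ a1 - 2 ^ a2 * p ^ 2 := by linarith
      rw [this]
      exact ((d1.mul_right _).sub d2).sub (Dvd.intro _ rfl)
    have h0 := pow_two_dvd_odd (odd3 hodd) d
    subst h0
    rw [pow_zero] at hmain
    have d3 : 1 + p ∣ 2 ^ a1 + 2 := by
      refine ⟨K + 1 - 2 * p, ?_⟩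
      linear_combination -hmain
    have i1 := Int.le_of_dvd (by linarith) d3
    have i2 : K ≤ 2 * p := by
      by_contra h8
      have : (2 * p + 1) * (2 * p + 1) ≤ K * (2 * p + 1) := mul_le_mul_of_nonneg_right (by omega) (by linarith)
      nlinarith
    have i3 : K * (1 + p) ≤ 2 * p * (1 + p) := mul_le_mul_of_nonneg_right i2 (by linarith)
    have i4 : (2 : ℤ) ^ a1 = p - 1 := by linarith
    have i5 : K * (1 + p) = 2 * p * (1 + p) := by rw [hmain, i4]; ring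
    have i6 : K = 2 * p := mul_right_cancel₀ (by linarith) i5
    obtain ⟨r, hr⟩ := hodd
    have i7 : (2 : ℤ) ^ k = p := by linarith
    have i8 : k = 0 := pow_two_odd (by rw [i7]; exact Int.not_even_iff_odd.2 ⟨r, hr⟩)
    rw [i8] at i7
    norm_num at i7
    linarith

lemma m2_12 {p K : ℤ} {a1 a2 k : ℕ} (hp : 3 ≤ p) (hodd : Odd p) (hK : K = 2 ^ (k + 1)) (h1 : a1 ≤ k)
    (h2 : a2 ≤ k) (ht : p < K)
    (hE : (K - p) * (1 + p) = 1 + 2 ^ a1 * p + 2 ^ a2 * p ^ 2) : p = 5 ∧ K = 16 := by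
  have e1 : 2 * (2 : ℤ) ^ a1 ≤ K := by rw [hK]; exact pow_lt_pow_two (by omega)
  have hx : 1 ≤ (2 : ℤ) ^ a1 := one_le_pow₀ (by norm_num)
  have hy : 1 ≤ (2 : ℤ) ^ a2 := one_le_pow₀ (by norm_num)
  have h7 : (2 : ℤ) ^ (k + 1) = 2 * 2 ^ k := by ring
  have hC := caseC0 (p := p) (K := K) (x := 2 ^ a1) (m := 2) (b := 1) (a2 := a2) (k := k) hp hodd hK h2
    (by linarith) ht (by rw [R_two, pow_one]; exact hE)
  obtain ⟨-, hC0⟩ := hC
  -- K = 1 + p g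
  obtain ⟨g, hg⟩ : ∃ g, g = 2 ^ a1 + p * (1 + 2 ^ a2) + 1 - K := ⟨_, rfl⟩
  have hKg : K = 1 + p * g := by rw [hg]; linear_combination hE
  obtain ⟨H, hH⟩ : ∃ H, H = g - 1 - 2 ^ a2 := ⟨_, rfl⟩
  have hgH : g = 1 + 2 ^ a2 + H := by linarith
  have hxH : 2 ^ a1 = 1 + 2 ^ a2 + (p + 1) * H := by
    rw [hKg, hgH] at hg
    linear_combination -hg
  have hKH : K = 1 + p * (1 + 2 ^ a2 + H) := by rw [← hgH]; exact hKg
  rcases lt_trichotomy H 0 with h | h | h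
  · exfalso
    have i1 : p * H ≤ p * (-1) := mul_le_mul_of_nonneg_left (by omega) (by linarith)
    linarith
  · exfalso
    rw [h, mul_zero, add_zero] at hxH
    have h3 : a2 < a1 := pow_le_pow_two (by linarith)
    have h4 := pow_lt_pow_two h3
    have h5 : (2 : ℤ) ^ a2 = 1 := by linarith
    rw [h5, h] at hKH
    omega
  · have i0 : 0 < (p + 1) * H := mul_pos (by linarith) h
    have h3 : a2 < a1 := pow_le_pow_two (by linarith)
    have d1 : (2 : ℤ) ^ a2 ∣ 2 ^ a1 := pow_dvd_pow 2 h3.le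
    have d2 : (2 : ℤ) ^ a2 ∣ K := by rw [hK]; exact pow_dvd_pow 2 (by omega)
    have d : (2 : ℤ) ^ a2 ∣ 1 + p + p ^ 2 := by
      have : 1 + p + p ^ 2 = (p + 1) * K - p * 2 ^ a1 - 2 ^ a2 * (p ^ 2) := by
        rw [hKH, hxH]; ring
      rw [this]
      exact ((d2.mul_left _).sub (d1.mul_left _)).sub (Dvd.intro _ rfl)
    have h0 := pow_two_dvd_odd (odd3 hodd) d
    subst h0
    rw [pow_zero] at hxH hKH
    have i1 : H = 1 := by
      by_contra h8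
      have : (p + 2) * 2 ≤ (p + 2) * H := mul_le_mul_of_nonneg_left (by omega) (by linarith)
      linarith
    subst i1
    obtain ⟨J, hJ, hKJ⟩ := two_pow_split h1
    rw [← hK] at hKJ
    have i2 : J = 1 := by
      by_contra h8
      have : (2 : ℤ) ^ a1 * (2 * 2) ≤ 2 ^ a1 * (2 * J) := mul_le_mul_of_nonneg_left (by omega) (by linarith)
      linarith
    subst i2
    have i3 : p = 5 := by linarith
    exact ⟨i3, by rw [hKH, i3]; norm_num⟩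

lemma m2_22 {p K : ℤ} {a1 a2 k : ℕ} (hp : 3 ≤ p) (hodd : Odd p) (hK : K = 2 ^ (k + 1))
    (h2 : a2 ≤ k) (h12 : a1 < a2) (ht : p < K)
    (hE : (K - p) * (1 + p) = 1 + 2 ^ a1 * p ^ 2 + 2 ^ a2 * p ^ 2) : False := by
  obtain ⟨f, hf⟩ : ∃ f : ℤ, f = K - p - (p - 1) * (2 ^ a1 + 2 ^ a2) := ⟨_, rfl⟩
  have hx : 1 ≤ (2 : ℤ) ^ a1 := one_le_pow₀ (by norm_num)
  have hy : 1 ≤ (2 : ℤ) ^ a2 := one_le_pow₀ (by norm_num)
  have h7 : (2 : ℤ) ^ (k + 1) = 2 * 2 ^ k := by ring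
  have e1 : K = 1 + f * p ^ 2 := by
    rw [hf]
    linear_combination (-(p - 1)) * hE
  have e2 : 2 ^ a1 + 2 ^ a2 + 1 = f * (1 + p) := by
    have h1 : (p - 1) * (2 ^ a1 + 2 ^ a2 + 1) = (p - 1) * (f * (1 + p)) := by
      linear_combination e1 + hf
    exact mul_left_cancel₀ (by linarith) h1
  have h8 : ¬ Even ((2 : ℤ) ^ a1) := by
    intro h9
    obtain ⟨r, hr⟩ := hodd
    obtain ⟨s, hs⟩ := h9
    have h10 : (2 : ℤ) ^ a2 = 2 * 2 ^ (a2 - 1) := by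
      have : a2 = (a2 - 1) + 1 := by omega
      conv_lhs => rw [this]
      ring
    have h11 : f * (1 + p) = 2 * (f * (r + 1)) := by rw [hr]; ring
    omega
  have h0 := pow_two_odd h8
  subst h0
  have d4 : (2 : ℤ) ^ a2 ∣ K := by rw [hK]; exact pow_dvd_pow 2 (by omega)
  have d5 : (2 : ℤ) ^ a2 ∣ f + p + (p - 1) := by
    have : f + p + (p - 1) = K - (p - 1) * 2 ^ a2 := by
      rw [hf]; ring
    rw [this]
    exact d4.sub (Dvd.intro_left _ rfl)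
  have hK0 : 0 < f := by
    by_contra h9
    have : f * p ^ 2 ≤ 0 * p ^ 2 := mul_le_mul_of_nonneg_right (by omega) (by positivity)
    linarith
  have i2 := Int.le_of_dvd (by linarith) d5
  rw [pow_zero] at e2
  have i3 : f = 1 := by
    have h9 : p * f ≤ 2 * p + 1 := by linarith
    have h10 : f ≤ 2 := by
      by_contra h11
      have : p * 3 ≤ p * f := mul_le_mul_of_nonneg_left (by omega) (by linarith)
      linarith
    obtain rfl | rfl : f = 1 ∨ f = 2 := by omega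
    · rfl
    · exfalso
      omega
  subst i3
  exact one_add_sq hp hodd (by rw [← hK, e1]; ring)

/-- the arithmetic core: `m = 2` -/
theorem core2 (p k a1 a2 b1 b2 : ℕ) (hp : p.Prime) (hp2 : p ≠ 2) (h1 : a1 ≤ k)
    (h2 : a2 ≤ k) (h3 : b1 ≤ b2) (h4 : b2 ≤ 2) (h5 : ¬ (a1 = a2 ∧ b1 = b2)) (ht : p < 2 ^ (k + 1))
    (hE : (2 ^ (k + 1) - p) * (1 + p) = 1 + 2 ^ a1 * p ^ b1 + 2 ^ a2 * p ^ b2) :
    (p = 3 ∧ k = 1) ∨ (p = 3 ∧ k = 2) ∨ (p = 5 ∧ k = 3) := by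
  have hp3 : 3 ≤ p := by
    have := hp.two_le
    omega
  have hp9 : p ≠ 9 := by
    rintro rfl
    norm_num at hp
  have hoddN : Odd p := hp.odd_of_ne_two hp2
  obtain ⟨P, hP⟩ : ∃ P : ℤ, P = (p : ℤ) := ⟨_, rfl⟩
  obtain ⟨K, hK⟩ : ∃ K : ℤ, K = 2 ^ (k + 1) := ⟨_, rfl⟩
  have hP3 : 3 ≤ P := by rw [hP]; exact_mod_cast hp3
  have hP9 : P ≠ 9 := by rw [hP]; exact_mod_cast hp9
  have hodd : Odd P := by rw [hP]; exact_mod_cast hoddN
  have htz : P < K := by rw [hP, hK]; exact_mod_cast ht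
  have hEz : (K - P) * (1 + P) = 1 + 2 ^ a1 * P ^ b1 + 2 ^ a2 * P ^ b2 := by
    have h := congrArg (Nat.cast : ℕ → ℤ) hE
    rw [Nat.cast_mul, Nat.cast_sub ht.le] at h
    push_cast at h
    rw [hP, hK]
    exact h
  have fin : ∀ (q j : ℕ), P = q → K = 2 ^ (j + 1) → p = q ∧ k = j := by
    intro q j hq hj
    refine ⟨by rw [hP] at hq; exact_mod_cast hq, ?_⟩
    have h : (2 : ℕ) ^ (k + 1) = 2 ^ (j + 1) := by
      rw [hK] at hj; exact_mod_cast hj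
    have := Nat.pow_right_injective le_rfl h
    omega
  obtain rfl | rfl | rfl : b2 = 0 ∨ b2 = 1 ∨ b2 = 2 := by omega
  · obtain rfl : b1 = 0 := by omega
    have hne : a1 ≠ a2 := fun h => h5 ⟨h, rfl⟩
    rw [pow_zero, mul_one, mul_one] at hEz
    left
    rcases lt_or_gt_of_ne hne with h | h
    · obtain ⟨g1, g2⟩ := m2_00 hP3 hodd hK h1 h2 h htz hEz
      exact fin 3 1 (by rw [g1]; norm_num) (by rw [g2]; norm_num)
    · obtain ⟨g1, g2⟩ := m2_00 hP3 hodd hK h2 h1 h htz (by rw [hEz]; ring)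
      exact fin 3 1 (by rw [g1]; norm_num) (by rw [g2]; norm_num)
  · obtain rfl | rfl : b1 = 0 ∨ b1 = 1 := by omega
    · exfalso
      rw [pow_zero, mul_one, pow_one] at hEz
      exact m2_01 hP3 hodd hK h1 h2 htz hEz
    · exfalso
      have hne : a1 ≠ a2 := fun h => h5 ⟨h, rfl⟩
      rw [pow_one] at hEz
      rcases lt_or_gt_of_ne hne with h | h
      · exact m2_11 hP3 hP9 hodd hK h1 h2 h htz hEz
      · exact m2_11 hP3 hP9 hodd hK h2 h1 h htz (by rw [hEz]; ring)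
  · obtain rfl | rfl | rfl : b1 = 0 ∨ b1 = 1 ∨ b1 = 2 := by omega
    · rw [pow_zero, mul_one] at hEz
      obtain ⟨g1, g2⟩ := m2_02 hP3 hodd hK h1 h2 htz hEz
      exact Or.inr (Or.inl (fin 3 2 (by rw [g1]; norm_num) (by rw [g2]; norm_num)))
    · rw [pow_one] at hEz
      obtain ⟨g1, g2⟩ := m2_12 hP3 hodd hK h1 h2 htz hEz
      exact Or.inr (Or.inr (fin 5 3 (by rw [g1]; norm_num) (by rw [g2]; norm_num)))
    · exfalso
      have hne : a1 ≠ a2 := fun h => h5 ⟨h, rfl⟩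
      rcases lt_or_gt_of_ne hne with h | h
      · exact m2_22 hP3 hodd hK h2 h htz hEz
      · exact m2_22 hP3 hodd hK h1 h htz (by rw [hEz]; ring)

end Pool.Agent.P8H24.NP
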